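import Pool.Agent.H366R2.DensFinal

set_option autoImplicit false

/-!
Positive density of the predecessor sets of the `3x+1` map.
-/

namespace Pool.Agent.Results.MP_76ba2b_nt.PositiveProportion

open Filter

/-- the `3x+1` function `T` -/
def T (n : ℕ) : ℕ := if n % 2 = 0 then n / 2 else (3 * n + 1) / 2

/-- `π_a(x)`, the number of positive integers `n ≤ x` which iterate to `a` -/
noncomputable def piCount (a : ℕ) (x : ℝ) : ℕ :=
  {n : ℕ | 0 < n ∧ (n : ℝ) ≤ x ∧ ∃ k : ℕ, T^[k] n = a}.ncard

/-- `P_T^n(a)`, the set of integers `m` with `2^n a ≤ m < 2^(n+1) a` which iterate to `a` -/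
def P (n a : ℕ) : Set ℕ := {m : ℕ | 2 ^ n * a ≤ m ∧ m < 2 ^ (n + 1) * a ∧ ∃ j : ℕ, T^[j] m = a}

theorem T_eq : T = Pool.Agent.H366R2.PDK.Tn := rfl

theorem T_pow (i m : ℕ) : T^[i] (2 ^ i * m) = m := by
  induction i with
  | zero => simp
  | succ i ih =>
    rw [Function.iterate_succ_apply]
    have e : 2 ^ (i + 1) * m = 2 * (2 ^ i * m) := by ring
    have h : T (2 * (2 ^ i * m)) = 2 ^ i * m := by
      unfold T
      rw [if_pos (by omega)]
      omega
    rw [e, h, ih]

theorem P_finite (n a : ℕ) : (P n a).Finite :=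
  (Set.finite_Iio (2 ^ (n + 1) * a)).subset fun _ hm => hm.2.1

/-- every `z < 2D` with `2^I z ≥ D` has a multiple `2^i z`, `i ≤ I`, in `[D, 2D)` -/
theorem scale {D z I : ℕ} (h1 : z < 2 * D) (h2 : D ≤ 2 ^ I * z) :
    ∃ i, i ≤ I ∧ D ≤ 2 ^ i * z ∧ 2 ^ i * z < 2 * D := by
  induction I with
  | zero => exact ⟨0, le_rfl, by simpa using h2, by simpa using h1⟩
  | succ I ih =>
    by_cases h : D ≤ 2 ^ I * z
    · obtain ⟨i, hi, h3, h4⟩ := ih h
      exact ⟨i, by omega, h3, h4⟩
    · refine ⟨I + 1, le_rfl, h2, ?_⟩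
      have e : 2 ^ (I + 1) * z = 2 * (2 ^ I * z) := by ring
      omega

/-- the dyadic bound `|P_T^n(a)| > c 2^n` for all `n ≥ 1` (not used for `result`) -/
theorem dyadic (a : ℕ) (ha0 : 0 < a) (ha : a % 3 ≠ 0) :
    ∃ c : ℝ, 0 < c ∧ ∀ n : ℕ, 1 ≤ n → c * 2 ^ n < ((P n a).ncard : ℝ) := by
  classical
  obtain ⟨c, C, X0, hc, _, h⟩ := Pool.Agent.H366R2.PDK.dens_nat
    Pool.Agent.H366R2.PDK.decay a ha0 (by omega)
  · -- the dyadic bound
    obtain ⟨I, hI⟩ := pow_unbounded_of_one_lt (2 / c) (by norm_num : (1 : ℝ) < 2)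
    have hI1 : (0 : ℝ) < I + 1 := by positivity
    refine ⟨min (c / (4 * (I + 1))) (1 / (|X0| + 2)), by positivity, fun n hn => ?_⟩
    set c' := min (c / (4 * ((I : ℝ) + 1))) (1 / (|X0| + 2)) with hc'
    have ha1 : (1 : ℝ) ≤ a := by exact_mod_cast ha0
    set D : ℕ := 2 ^ n * a with hD
    have hDr : (2 : ℝ) ^ n ≤ D := by
      rw [hD]; push_cast
      exact le_mul_of_one_le_right (by positivity) ha1
    have hD1 : 1 ≤ D := by
      have : (1 : ℝ) ≤ D := le_trans (one_le_pow₀ (by norm_num)) hDr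
      exact_mod_cast this
    have hDr1 : (1 : ℝ) ≤ D := by exact_mod_cast hD1
    by_cases hX : X0 ≤ 2 * (D : ℝ) - 1
    · obtain ⟨S, hS, hcard⟩ := h _ hX
      -- the large elements
      set S' := S.filter (fun z : ℕ => c * D / 2 ≤ (z : ℝ)) with hS'
      have hS'c : c * D / 2 ≤ (S'.card : ℝ) := by
        have h2 := Finset.card_filter_add_card_filter_not (s := S)
          (fun z : ℕ => c * D / 2 ≤ (z : ℝ))
        have h3 : (S.filter (fun z : ℕ => ¬ c * D / 2 ≤ (z : ℝ))).card ≤
            (Finset.Icc 1 ⌊c * D / 2⌋₊).card := by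
          apply Finset.card_le_card
          intro z hz
          rw [Finset.mem_filter] at hz
          rw [Finset.mem_Icc]
          exact ⟨(hS z hz.1).1, Nat.le_floor (not_le.1 hz.2).le⟩
        rw [Nat.card_Icc, Nat.add_sub_cancel] at h3
        have h4 : ((⌊c * D / 2⌋₊ : ℕ) : ℝ) ≤ c * D / 2 := Nat.floor_le (by positivity)
        have h5 : ((S.filter (fun z : ℕ => ¬ c * D / 2 ≤ (z : ℝ))).card : ℝ) ≤ c * D / 2 :=
          le_trans (by exact_mod_cast h3) h4
        have h6 : (S'.card : ℝ) +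
            ((S.filter (fun z : ℕ => ¬ c * D / 2 ≤ (z : ℝ))).card : ℝ) = S.card := by
          exact_mod_cast h2
        have h7 : c * D ≤ c * (2 * (D : ℝ) - 1) :=
          mul_le_mul_of_nonneg_left (by linarith) hc.le
        linarith
      have hsc : ∀ z ∈ S', ∃ i, i ≤ I ∧ D ≤ 2 ^ i * z ∧ 2 ^ i * z < 2 * D := by
        intro z hz
        rw [hS', Finset.mem_filter] at hz
        obtain ⟨g1, g2, _, _⟩ := hS z hz.1
        apply scale
        · have : (z : ℝ) < 2 * D := by linarith
          exact_mod_cast this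
        · have g3 : (D : ℝ) ≤ 2 ^ I * z := by
            have g4 : (2 : ℝ) ≤ 2 ^ I * c := by
              rw [div_lt_iff₀ hc] at hI
              exact hI.le
            calc (D : ℝ) = 2 * (D / 2) := by ring
              _ ≤ (2 ^ I * c) * (D / 2) := mul_le_mul_of_nonneg_right g4 (by positivity)
              _ = 2 ^ I * (c * D / 2) := by ring
              _ ≤ 2 ^ I * z := mul_le_mul_of_nonneg_left hz.2 (by positivity)
          exact_mod_cast g3
      choose! i hi1 hi2 hi3 using hsc
      have hmap : S'.card ≤ (Finset.range (I + 1) ×ˢ (P_finite n a).toFinset).card := by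
        apply Finset.card_le_card_of_injOn (fun z => (i z, 2 ^ i z * z))
        · intro z hz
          have hz' : z ∈ S' := hz
          have hzS : z ∈ S := (Finset.mem_filter.1 hz').1
          obtain ⟨g1, g2, ⟨j, _, g3⟩, _⟩ := hS z hzS
          rw [Finset.mem_coe, Finset.mem_product, Finset.mem_range, Set.Finite.mem_toFinset]
          refine ⟨Nat.lt_succ_of_le (hi1 z hz'), hi2 z hz', ?_, j + i z, ?_⟩
          · have e : 2 ^ (n + 1) * a = 2 * D := by rw [hD]; ring
            rw [e]
            exact hi3 z hz'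
          · rw [Function.iterate_add_apply, T_pow]
            exact g3
        · intro z hz z' hz' he
          have e1 : i z = i z' := congrArg Prod.fst he
          have e2 : 2 ^ i z * z = 2 ^ i z' * z' := congrArg Prod.snd he
          rw [e1] at e2
          exact Nat.eq_of_mul_eq_mul_left (by positivity) e2
      rw [Finset.card_product, Finset.card_range,
        ← Set.ncard_eq_toFinset_card (P n a) (P_finite n a)] at hmap
      have hmapR : (S'.card : ℝ) ≤ ((I : ℝ) + 1) * ((P n a).ncard : ℝ) := by exact_mod_cast hmap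
      have h8 : c' * 2 ^ n ≤ c / (4 * ((I : ℝ) + 1)) * D := by
        apply mul_le_mul (min_le_left _ _) hDr (by positivity) (by positivity)
      have h9 : c / (4 * ((I : ℝ) + 1)) * D < c * D / 2 / ((I : ℝ) + 1) := by
        have e : c * D / 2 / ((I : ℝ) + 1) = 2 * (c / (4 * ((I : ℝ) + 1)) * D) := by
          field_simp
          norm_num
        rw [e]
        have : 0 < c / (4 * ((I : ℝ) + 1)) * D := by positivity
        linarith
      have h10 : c * D / 2 / ((I : ℝ) + 1) ≤ ((P n a).ncard : ℝ) := by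
        rw [div_le_iff₀ hI1]
        linarith
      linarith
    · push Not at hX
      have h1 : (1 : ℝ) ≤ ((P n a).ncard : ℝ) := by
        have h2 : 0 < (P n a).ncard := by
          rw [Set.ncard_pos (P_finite n a)]
          refine ⟨2 ^ n * a, le_rfl, ?_, n, T_pow n a⟩
          have e : 2 ^ (n + 1) * a = 2 * D := by rw [hD]; ring
          rw [e]
          omega
        exact_mod_cast h2
      refine lt_of_lt_of_le ?_ h1
      have h2 : c' * 2 ^ n ≤ 1 / (|X0| + 2) * ((|X0| + 1) / 2) := by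
        apply mul_le_mul (min_le_right _ _) _ (by positivity) (by positivity)
        have := le_abs_self X0
        linarith
      refine lt_of_le_of_lt h2 ?_
      rw [div_mul_div_comm, div_lt_one (by positivity)]
      have := abs_nonneg X0
      linarith

/-- For every positive integer `a` not divisible by 3 the lower limit of `π_a(x)/x` is positive. -/
theorem result (a : ℕ) (ha0 : 0 < a) (ha : a % 3 ≠ 0) :
    0 < liminf (fun x : ℝ => (piCount a x : ℝ) / x) atTop := by
  obtain ⟨c, C, X0, hc, _, h⟩ := Pool.Agent.H366R2.PDK.dens_nat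
    Pool.Agent.H366R2.PDK.decay a ha0 (by omega)
  refine Pool.Agent.H366R2.PDK.liminf_nat_of (fun n => ∃ k : ℕ, T^[k] n = a) (X0 := X0) hc
    fun X hX => ?_
  obtain ⟨S, hS, hcard⟩ := h X hX
  refine ⟨S, fun n hn => ?_, hcard⟩
  obtain ⟨h1, h2, ⟨j, _, h3⟩, _⟩ := hS n hn
  exact ⟨h1, h2, j, h3⟩

end Pool.Agent.Results.MP_76ba2b_nt.PositiveProportion
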